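import Mathlib
import Pool.Agent.H762R3.Fin
set_option autoImplicit false

/-!
`ms(G, r)` for a compact group `G`, and the value `ms(SO(3), 2) = 1/4` (question Q2).

Lower bound: the law of `u²`, for `u` uniform on `SO(3)`, is a positive definite density with
respect to Haar measure, so the average over `g` of `μ(A ∩ g A⁻¹ g)` is at least `μ(A)²`.
Upper bound: two-colourings of the three-sphere, invariant under the antipodal map, constructed by
derandomisation.
-/

namespace Pool.Agent.Results.MP_4912e6_co.RotationGroup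

open MeasureTheory Set TopologicalSpace
open scoped ENNReal

/-- The Haar measure `μ` of the compact group `G` normalised by `μ(G) = 1`. -/
noncomputable def haarProb (G : Type) [Group G] [TopologicalSpace G] [IsTopologicalGroup G]
    [CompactSpace G] [MeasurableSpace G] [BorelSpace G] : Measure G :=
  Measure.haarMeasure (⊤ : PositiveCompacts G)

/-- `A ⊆ G` is symmetric if `A = g A⁻¹ g` for some `g ∈ G`. -/
def IsSymmetricSet {G : Type} [Group G] (A : Set G) : Prop :=
  ∃ g : G, A = (fun a => g * a⁻¹ * g) '' A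

/-- `ms(G, r)`: the supremum of all `ε > 0` such that every measurable `r`-colouring `χ` of `G`
admits a measurable monochromatic symmetric set `B` with `μ(B) ≥ ε`. -/
noncomputable def ms (G : Type) [Group G] [TopologicalSpace G] [IsTopologicalGroup G]
    [CompactSpace G] [MeasurableSpace G] [BorelSpace G] (r : ℕ) : ℝ≥0∞ :=
  sSup {ε : ℝ≥0∞ | 0 < ε ∧ ∀ χ : G → Fin r,
    (∀ i, NullMeasurableSet (χ ⁻¹' {i}) (haarProb G)) →
      ∃ B : Set G, NullMeasurableSet B (haarProb G) ∧ (∃ i, ∀ x ∈ B, χ x = i) ∧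
        IsSymmetricSet B ∧ ε ≤ haarProb G B}

/-- The group `SO(3)` of real orthogonal `3 × 3` matrices of determinant one, with its
topology as a subset of the space of matrices. -/
abbrev SO3 : Type := Matrix.specialOrthogonalGroup (Fin 3) ℝ

instance : IsTopologicalGroup SO3 := Pool.Agent.H762R3.Rot.instIsTopologicalGroupSO3

instance : CompactSpace SO3 := Pool.Agent.H762R3.Rot.instCompactSpaceSO3

noncomputable instance : MeasurableSpace SO3 := borel SO3

instance : BorelSpace SO3 := ⟨rfl⟩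

lemma haar_univ : haarProb SO3 univ = 1 := Measure.haarMeasure_self

instance : IsProbabilityMeasure (haarProb SO3) := ⟨haar_univ⟩

/-- **Theorem.** `ms(SO(3), 2) = 1/4`. -/
theorem result : ms SO3 2 = 1 / 4 := by
  apply le_antisymm
  · apply sSup_le
    rintro ε ⟨-, hε⟩
    refine ENNReal.le_of_forall_pos_le_add fun δ hδ _ => ?_
    obtain ⟨χ, hχm, hχ⟩ := Pool.Agent.H762R3.Fin3.upper_SO3 (δ : ℝ) (by exact_mod_cast hδ)
    obtain ⟨B, -, ⟨i, hi⟩, ⟨g, hg⟩, hB⟩ := hε χ (fun i => (hχm i).nullMeasurableSet)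
    refine hB.trans ((hχ B i g hi hg).trans (le_of_eq ?_))
    rw [ENNReal.ofReal_add (by norm_num) (NNReal.coe_nonneg δ), ENNReal.ofReal_coe_nnreal,
      one_div, one_div, ENNReal.ofReal_inv_of_pos (by norm_num)]
    congr 2
    simp
  · apply le_sSup
    refine ⟨by simp, fun χ hχ => ?_⟩
    -- a popular colour
    obtain ⟨i, hi⟩ : ∃ i, (1 / 2 : ℝ≥0∞) ≤ haarProb SO3 (χ ⁻¹' {i}) := by
      by_contra hcon
      push Not at hcon
      have h1 : (univ : Set SO3) ⊆ χ ⁻¹' {0} ∪ χ ⁻¹' {1} := by
        intro x _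
        by_cases h : χ x = 0
        · left; exact h
        · right
          show χ x = 1
          omega
      have h2 := (measure_mono (μ := haarProb SO3) h1).trans (measure_union_le _ _)
      rw [haar_univ] at h2
      have h3 := ENNReal.add_lt_add (hcon 0) (hcon 1)
      rw [one_div, ENNReal.inv_two_add_inv_two] at h3
      exact absurd (lt_of_le_of_lt h2 h3) (lt_irrefl _)
    obtain ⟨t, ht1, ht2, ht3⟩ := (hχ i).exists_measurable_subset_ae_eq
    have ht4 : haarProb SO3 t = haarProb SO3 (χ ⁻¹' {i}) := measure_congr ht3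
    obtain ⟨γ, hγ⟩ := Pool.Agent.H762R3.Fin3.lower_SO3 ht2
    have hinv : ∀ x : SO3, γ * (γ * x⁻¹ * γ)⁻¹ * γ = x := by intro x; group
    refine ⟨t ∩ {A | γ * A⁻¹ * γ ∈ t}, ?_, ⟨i, fun x hx => ht1 hx.1⟩, ⟨γ, ?_⟩, ?_⟩
    · refine (ht2.inter ?_).nullMeasurableSet
      have hc : Continuous fun A : SO3 => γ * A⁻¹ * γ :=
        (continuous_const.mul continuous_inv).mul continuous_const
      exact hc.measurable ht2
    · ext x
      constructor
      · rintro ⟨h1, h2⟩
        exact ⟨γ * x⁻¹ * γ, ⟨h2, by show γ * (γ * x⁻¹ * γ)⁻¹ * γ ∈ t; rw [hinv]; exact h1⟩, hinv x⟩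
      · rintro ⟨y, ⟨h1, h2⟩, rfl⟩
        exact ⟨h2, by show γ * (γ * y⁻¹ * γ)⁻¹ * γ ∈ t; rw [hinv]; exact h1⟩
    · refine le_trans ?_ hγ
      have h5 : (1 / 2 : ℝ≥0∞) ^ 2 ≤ (haarProb SO3 t) ^ 2 := by
        rw [ht4]
        exact pow_le_pow_left' hi 2
      refine le_trans (le_of_eq ?_) h5
      rw [one_div, one_div, ← ENNReal.inv_pow]
      norm_num

end Pool.Agent.Results.MP_4912e6_co.RotationGroup
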